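import Pool.Agent.H71.FX.Targets2

/-!
# Row PE of the board fxm_modules: eventually periodic sets
-/

set_option autoImplicit false

namespace Pool.Agent.H40.FX

open Pool.Agent.H71.FX Pool.Agent.H71.PF

theorem pf_PE : T_PE := by
  intro S p N hp hS
  have hex : ∀ c : ℕ, ∃ m : ℕ, (∃ n, N ≤ n ∧ n ∈ S ∧ n % p = c) → N ≤ m ∧ m ∈ S ∧ m % p = c := by
    intro c
    by_cases h : ∃ n, N ≤ n ∧ n ∈ S ∧ n % p = c
    · obtain ⟨n, hn⟩ := h
      exact ⟨n, fun _ => hn⟩
    · exact ⟨0, fun h' => absurd h' h⟩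
  choose m hm using hex
  have hadd : ∀ (k n : ℕ), N ≤ n → n ∈ S → n + p * k ∈ S := by
    intro k
    induction k with
    | zero => intro n _ h; exact h
    | succ k ih =>
      intro n hn h
      have h1 := hS _ (by omega) (ih n hn h)
      rw [Nat.mul_succ, ← Nat.add_assoc]
      exact h1
  refine ⟨p, N + ∑ c ∈ Finset.range p, m c, hp, fun n hn => ⟨fun h => hS n (by omega) h,
    fun h => ?_⟩⟩
  have hc : n % p < p := Nat.mod_lt _ hp
  obtain ⟨h1, h2, h3⟩ := hm (n % p) ⟨n + p, by omega, h, Nat.add_mod_right n p⟩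
  have h4 : m (n % p) ≤ ∑ c ∈ Finset.range p, m c :=
    Finset.single_le_sum (f := m) (fun _ _ => Nat.zero_le _) (Finset.mem_range.2 hc)
  have h5 : m (n % p) ≤ n := by omega
  obtain ⟨k, hk⟩ := (Nat.modEq_iff_dvd' h5).1 (show m (n % p) ≡ n [MOD p] from h3)
  have h6 : n = m (n % p) + p * k := by omega
  rw [h6]
  exact hadd k _ h1 h2

end Pool.Agent.H40.FX
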